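import Pool.Agent.H15.LU.Targets

set_option autoImplicit false

namespace Pool.Agent.H57.LU.LCA

open Filter Topology Asymptotics Polynomial Pool.Agent.H15.LU

lemma exists_rho (x y z : ℝ) (hx : 0 ≤ x) (hy : 0 ≤ y) (hz : 0 ≤ z)
    (h : 0 < x ∨ 0 < y ∨ 0 < z) : ∃ ρ : ℝ, 0 < ρ ∧ y ≤ ρ ∧ x ≤ ρ ^ 2 ∧ z ≤ ρ ^ 3 ∧
      (y = ρ ∨ x = ρ ^ 2 ∨ z = ρ ^ 3) := by
  have hB : Real.sqrt x ^ 2 = x := Real.sq_sqrt hx
  have hE : (z ^ ((1 : ℝ) / 3)) ^ 3 = z := by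
    rw [← Real.rpow_natCast, ← Real.rpow_mul hz]
    norm_num
  have hB0 : 0 ≤ Real.sqrt x := Real.sqrt_nonneg x
  have hE0 : 0 ≤ z ^ ((1 : ℝ) / 3) := Real.rpow_nonneg hz _
  set B := Real.sqrt x with hBdef
  set E := z ^ ((1 : ℝ) / 3) with hEdef
  have h1 : y ≤ max y (max B E) := le_max_left _ _
  have h2 : B ≤ max y (max B E) := (le_max_left _ _).trans (le_max_right _ _)
  have h3 : E ≤ max y (max B E) := (le_max_right _ _).trans (le_max_right _ _)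
  refine ⟨max y (max B E), ?_, h1, ?_, ?_, ?_⟩
  · rcases h with h | h | h
    · have hBp : 0 < B := Real.sqrt_pos.2 h
      exact lt_of_lt_of_le hBp h2
    · exact lt_of_lt_of_le h h1
    · have hEp : 0 < E := Real.rpow_pos_of_pos h _
      exact lt_of_lt_of_le hEp h3
  · calc x = B ^ 2 := hB.symm
      _ ≤ (max y (max B E)) ^ 2 := pow_le_pow_left₀ hB0 h2 2
  · calc z = E ^ 3 := hE.symm
      _ ≤ (max y (max B E)) ^ 3 := pow_le_pow_left₀ hE0 h3 3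
  · rcases max_choice y (max B E) with h4 | h4
    · left; exact h4.symm
    · rcases max_choice B E with h5 | h5
      · right; left
        rw [h4, h5, hB]
      · right; right
        rw [h4, h5, hE]

theorem lca (h1 : T_CRT) (h2 : T_GRN) : T_LCA := by
  intro a c C hs hC
  -- lower bound on the sphere
  have hcont : Continuous (fun Q : Fin 3 → ℂ => ‖dx a Q‖ + ‖dy a c Q‖ + ‖dz Q‖ + ‖Q 1‖) := by
    unfold dx dy dz
    fun_prop
  have hne : (Metric.sphere (0 : Fin 3 → ℂ) 1).Nonempty :=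
    NormedSpace.sphere_nonempty.2 zero_le_one
  obtain ⟨Q0, hQ0, hmin⟩ := (isCompact_sphere (0 : Fin 3 → ℂ) 1).exists_isMinOn hne
    hcont.continuousOn
  have hpos : 0 < ‖dx a Q0‖ + ‖dy a c Q0‖ + ‖dz Q0‖ + ‖Q0 1‖ := by
    by_contra hle
    have n1 := norm_nonneg (dx a Q0)
    have n2 := norm_nonneg (dy a c Q0)
    have n3 := norm_nonneg (dz Q0)
    have n4 := norm_nonneg (Q0 1)
    have e1 : dx a Q0 = 0 := norm_le_zero_iff.1 (by linarith)
    have e2 : dy a c Q0 = 0 := norm_le_zero_iff.1 (by linarith)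
    have e3 : dz Q0 = 0 := norm_le_zero_iff.1 (by linarith)
    have e4 : Q0 = 0 := h1 a c Q0 hs e1 e2 e3
    rw [e4] at hQ0
    simp at hQ0
  obtain ⟨μ, hμ, hμm⟩ : ∃ μ : ℝ, 0 < μ ∧ ∀ Q : Fin 3 → ℂ, ‖Q‖ = 1 →
      4 * μ ≤ ‖dx a Q‖ + ‖dy a c Q‖ + ‖dz Q‖ + ‖Q 1‖ := by
    refine ⟨(‖dx a Q0‖ + ‖dy a c Q0‖ + ‖dz Q0‖ + ‖Q0 1‖) / 4, by linarith, fun Q hQ => ?_⟩
    have h3 := hmin (show Q ∈ Metric.sphere (0 : Fin 3 → ℂ) 1 by simpa using hQ)
    simp only [Set.mem_ofPred_eq] at h3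
    linarith
  -- the constants
  obtain ⟨η, hη, hη1, hημ, hηC⟩ : ∃ η : ℝ, 0 < η ∧ η ≤ 1 / 2 ∧ η ≤ μ ∧ C * (2 * η) ≤ μ := by
    refine ⟨min (1 / 2) (min μ (μ / (2 * C))), ?_, min_le_left _ _,
      (min_le_right _ _).trans (min_le_left _ _), ?_⟩
    · have : 0 < μ / (2 * C) := by positivity
      exact lt_min (by norm_num) (lt_min hμ this)
    · have h3 : min (1 / 2) (min μ (μ / (2 * C))) ≤ μ / (2 * C) :=
        (min_le_right _ _).trans (min_le_right _ _)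
      rw [le_div_iff₀ (by positivity)] at h3
      linarith
  refine ⟨1 / η ^ 3, η ^ 3, by positivity, by positivity, ?_⟩
  intro p hp hpδ hgp
  have hp012 : 0 < ‖p 0‖ ∨ 0 < ‖p 1‖ ∨ 0 < ‖p 2‖ := by
    by_contra hcon
    push Not at hcon
    apply hp
    funext i
    fin_cases i
    · exact norm_le_zero_iff.1 hcon.1
    · exact norm_le_zero_iff.1 hcon.2.1
    · exact norm_le_zero_iff.1 hcon.2.2
  obtain ⟨ρ, hρ, hyρ, hxρ, hzρ, heq⟩ := exists_rho ‖p 0‖ ‖p 1‖ ‖p 2‖ (norm_nonneg _)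
    (norm_nonneg _) (norm_nonneg _) hp012
  have hni : ∀ i, ‖p i‖ ≤ ‖p‖ := fun i => norm_le_pi_norm p i
  have hρη : ρ < η := by
    by_contra hle
    push Not at hle
    rcases heq with h3 | h3 | h3
    · have h4 := hni 1
      have : η ^ 3 ≤ η := by nlinarith [sq_nonneg η, mul_pos hη hη]
      linarith
    · have h4 := hni 0
      have h5 : η ^ 2 ≤ ρ ^ 2 := pow_le_pow_left₀ hη.le hle 2
      have : η ^ 3 ≤ η ^ 2 := by nlinarith [sq_nonneg η, mul_pos hη hη]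
      linarith
    · have h4 := hni 2
      have h5 : η ^ 3 ≤ ρ ^ 3 := pow_le_pow_left₀ hη.le hle 3
      linarith
  have hρ1 : ρ ≤ 1 := by linarith
  have hρ32 : ρ ^ 3 ≤ ρ ^ 2 := by nlinarith [mul_pos hρ hρ]
  have hρ21 : ρ ^ 2 ≤ ρ := by nlinarith
  -- the rescaled point
  have hρc : (ρ : ℂ) ≠ 0 := by exact_mod_cast hρ.ne'
  set P : Fin 3 → ℂ := ![p 0 / (ρ : ℂ) ^ 2, p 1 / (ρ : ℂ), p 2 / (ρ : ℂ) ^ 3] with hPdef
  have hP0 : P 0 = p 0 / (ρ : ℂ) ^ 2 := rfl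
  have hP1 : P 1 = p 1 / (ρ : ℂ) := rfl
  have hP2 : P 2 = p 2 / (ρ : ℂ) ^ 3 := rfl
  have hnρ : ‖(ρ : ℂ)‖ = ρ := by rw [Complex.norm_real, Real.norm_of_nonneg hρ.le]
  have hN0 : ‖P 0‖ = ‖p 0‖ / ρ ^ 2 := by rw [hP0, norm_div, norm_pow, hnρ]
  have hN1 : ‖P 1‖ = ‖p 1‖ / ρ := by rw [hP1, norm_div, hnρ]
  have hN2 : ‖P 2‖ = ‖p 2‖ / ρ ^ 3 := by rw [hP2, norm_div, norm_pow, hnρ]
  have hPn : ‖P‖ = 1 := by
    apply le_antisymm
    · refine (pi_norm_le_iff_of_nonneg zero_le_one).2 fun i => ?_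
      fin_cases i
      · change ‖P 0‖ ≤ 1
        rw [hN0]; exact (div_le_one (by positivity)).2 hxρ
      · change ‖P 1‖ ≤ 1
        rw [hN1]; exact (div_le_one hρ).2 hyρ
      · change ‖P 2‖ ≤ 1
        rw [hN2]; exact (div_le_one (by positivity)).2 hzρ
    · rcases heq with h3 | h3 | h3
      · have h4 := norm_le_pi_norm P 1
        rw [hN1, h3, div_self hρ.ne'] at h4
        exact h4
      · have h4 := norm_le_pi_norm P 0
        rw [hN0, h3, div_self (by positivity)] at h4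
        exact h4
      · have h4 := norm_le_pi_norm P 2
        rw [hN2, h3, div_self (by positivity)] at h4
        exact h4
  have hp0 : p 0 = (ρ : ℂ) ^ 2 * P 0 := by rw [hP0]; field_simp
  have hp1 : p 1 = (ρ : ℂ) * P 1 := by rw [hP1]; field_simp
  have hp2 : p 2 = (ρ : ℂ) ^ 3 * P 2 := by rw [hP2]; field_simp
  have hdx : dx a p = (ρ : ℂ) ^ 5 * dx a P := by
    simp only [dx]; rw [hp0, hp1, hp2]; ring
  have hdy : dy a c p = (ρ : ℂ) ^ 6 * dy a c P := by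
    simp only [dy]; rw [hp0, hp1, hp2]; ring
  have hdz : dz p = (ρ : ℂ) ^ 4 * dz P := by
    simp only [dz]; rw [hp0, hp1, hp2]; ring
  have hpρ : ‖p‖ ≤ ρ := by
    refine (pi_norm_le_iff_of_nonneg hρ.le).2 fun i => ?_
    fin_cases i
    · exact hxρ.trans hρ21
    · exact hyρ
    · exact hzρ.trans (hρ32.trans hρ21)
  have hyP : ‖p 1‖ = ρ * ‖P 1‖ := by rw [hN1]; field_simp
  have hpρ2 : ‖p‖ ≤ ρ * (‖P 1‖ + ρ) := by
    have hn := norm_nonneg (P 1)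
    have hpn : 0 ≤ ρ * ‖P 1‖ := by positivity
    refine (pi_norm_le_iff_of_nonneg (by positivity)).2 fun i => ?_
    fin_cases i
    · change ‖p 0‖ ≤ _
      nlinarith
    · change ‖p 1‖ ≤ _
      rw [hyP]; nlinarith
    · change ‖p 2‖ ≤ _
      nlinarith
  have hg := h2 a c p
  have hg6 : ‖grad a c p‖ ≤ C * ρ ^ 6 :=
    hgp.trans (mul_le_mul_of_nonneg_left (pow_le_pow_left₀ (norm_nonneg _) hpρ 6) hC.le)
  have hg6' : ‖grad a c p‖ ≤ C * (ρ * (‖P 1‖ + ρ)) ^ 6 :=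
    hgp.trans (mul_le_mul_of_nonneg_left (pow_le_pow_left₀ (norm_nonneg _) hpρ2 6) hC.le)
  have hX : ‖dx a P‖ ≤ C * ρ := by
    have h3 := hg.1.trans hg6
    rw [hdx, norm_mul, norm_pow, hnρ] at h3
    have h4 : ρ ^ 5 * ‖dx a P‖ ≤ ρ ^ 5 * (C * ρ) := h3.trans (le_of_eq (by ring))
    exact le_of_mul_le_mul_left h4 (by positivity)
  have hZ : ‖dz P‖ ≤ C * ρ ^ 2 := by
    have h3 := hg.2.2.1.trans hg6
    rw [hdz, norm_mul, norm_pow, hnρ] at h3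
    have h4 : ρ ^ 4 * ‖dz P‖ ≤ ρ ^ 4 * (C * ρ ^ 2) := h3.trans (le_of_eq (by ring))
    exact le_of_mul_le_mul_left h4 (by positivity)
  have hY : ‖dy a c P‖ ≤ C * (‖P 1‖ + ρ) ^ 6 := by
    have h3 := hg.2.1.trans hg6'
    rw [hdy, norm_mul, norm_pow, hnρ] at h3
    have h4 : ρ ^ 6 * ‖dy a c P‖ ≤ ρ ^ 6 * (C * (‖P 1‖ + ρ) ^ 6) :=
      h3.trans (le_of_eq (by ring))
    exact le_of_mul_le_mul_left h4 (by positivity)
  have hP1η : η ≤ ‖P 1‖ := by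
    by_contra hlt
    push Not at hlt
    have h3 := hμm P hPn
    have hn := norm_nonneg (P 1)
    have h5 : (‖P 1‖ + ρ) ^ 6 ≤ 2 * η := by
      have h6 : (‖P 1‖ + ρ) ≤ 2 * η := by linarith
      have h7 : (‖P 1‖ + ρ) ^ 6 ≤ (2 * η) ^ 6 :=
        pow_le_pow_left₀ (by positivity) h6 6
      have h8 : (2 * η) ^ 6 ≤ (2 * η) ^ 1 :=
        pow_le_pow_of_le_one (by positivity) (by linarith) (by norm_num)
      linarith [pow_one (2 * η)]
    have hY' : ‖dy a c P‖ ≤ μ :=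
      hY.trans ((mul_le_mul_of_nonneg_left h5 hC.le).trans hηC)
    have hX' : ‖dx a P‖ ≤ μ := by
      refine hX.trans ((mul_le_mul_of_nonneg_left ?_ hC.le).trans hηC)
      linarith
    have hZ' : ‖dz P‖ ≤ μ := by
      refine hZ.trans ((mul_le_mul_of_nonneg_left ?_ hC.le).trans hηC)
      linarith
    linarith
  have hyη : η * ρ ≤ ‖p 1‖ := by
    rw [hyP]; nlinarith
  have hρy : ρ ≤ ‖p 1‖ / η := by
    rw [le_div_iff₀ hη]; linarith
  have hη3 : 0 < η ^ 3 := by positivity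
  have hηi : 1 ≤ 1 / η := by
    rw [le_div_iff₀ hη]; linarith
  have hyn := norm_nonneg (p 1)
  refine ⟨?_, ?_, ?_⟩
  · refine hpρ.trans (hρy.trans ?_)
    rw [div_eq_mul_one_div, mul_comm]
    refine mul_le_mul_of_nonneg_right ?_ hyn
    apply one_div_le_one_div_of_le hη3
    nlinarith [mul_pos hη hη]
  · refine hxρ.trans ((pow_le_pow_left₀ hρ.le hρy 2).trans ?_)
    rw [div_pow, div_eq_mul_one_div, mul_comm]
    refine mul_le_mul_of_nonneg_right ?_ (by positivity)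
    apply one_div_le_one_div_of_le hη3
    nlinarith [mul_pos hη hη]
  · refine hzρ.trans ((pow_le_pow_left₀ hρ.le hρy 3).trans ?_)
    rw [div_pow, div_eq_mul_one_div, mul_comm]

end Pool.Agent.H57.LU.LCA
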