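import Pool.Agent.H15.LU.Targets

set_option autoImplicit false

namespace Pool.Agent.H57.LU.LCB

open Filter Topology Asymptotics Polynomial Pool.Agent.H15.LU

theorem lcb (h1 : T_LCA) (h2 : T_GRN) : T_LCB := by
  intro a c C P hs hC hP hP0 hg
  obtain ⟨D, δ, hD, hδ, hL⟩ := h1 a c C hs hC
  have hPn : Tendsto (fun n => ‖P n‖) atTop (𝓝 0) := tendsto_zero_iff_norm_tendsto_zero.1 hP
  have hev : ∀ᶠ n in atTop, ‖P n‖ < δ := hPn.eventually (gt_mem_nhds hδ)
  obtain ⟨n0, hn0⟩ := eventually_atTop.1 hev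
  have hb : ∀ n, n0 ≤ n → ‖P n‖ ≤ D * ‖P n 1‖ ∧ ‖P n 0‖ ≤ D * ‖P n 1‖ ^ 2 ∧
      ‖P n 2‖ ≤ D * ‖P n 1‖ ^ 3 := fun n hn => hL _ (hP0 n) (hn0 n hn) (hg n)
  have hy : ∀ n, n0 ≤ n → P n 1 ≠ 0 := by
    intro n hn h
    have h3 := (hb n hn).1
    rw [h, norm_zero, mul_zero] at h3
    exact hP0 n (norm_le_zero_iff.1 h3)
  set Q : ℕ → ℂ × ℂ := fun n =>
    (P (n + n0) 0 / P (n + n0) 1 ^ 2, P (n + n0) 2 / P (n + n0) 1 ^ 3) with hQ
  have hQb : ∀ n, Q n ∈ Metric.closedBall (0 : ℂ × ℂ) D := by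
    intro n
    have h3 := hb (n + n0) (Nat.le_add_left _ _)
    have hy1 : 0 < ‖P (n + n0) 1‖ := norm_pos_iff.2 (hy _ (Nat.le_add_left _ _))
    rw [mem_closedBall_zero_iff, Prod.norm_def, max_le_iff]
    constructor
    · simp only [hQ, norm_div, norm_pow]
      rw [div_le_iff₀ (by positivity)]
      exact h3.2.1
    · simp only [hQ, norm_div, norm_pow]
      rw [div_le_iff₀ (by positivity)]
      exact h3.2.2
  obtain ⟨w, -, s, hs1, hs2⟩ := (isCompact_closedBall (0 : ℂ × ℂ) D).tendsto_subseq hQb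
  have hsm : StrictMono (fun n => s n + n0) := fun i j hij => Nat.add_lt_add_right (hs1 hij) n0
  -- the three sequences
  set y : ℕ → ℂ := fun n => P (s n + n0) 1 with hydef
  set u : ℕ → ℂ := fun n => P (s n + n0) 0 / y n ^ 2 with hudef
  set v : ℕ → ℂ := fun n => P (s n + n0) 2 / y n ^ 3 with hvdef
  have hu : Tendsto u atTop (𝓝 w.1) := (continuous_fst.tendsto w).comp hs2
  have hv : Tendsto v atTop (𝓝 w.2) := (continuous_snd.tendsto w).comp hs2
  have hPs : Tendsto (fun n => ‖P (s n + n0)‖) atTop (𝓝 0) := hPn.comp hsm.tendsto_atTop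
  have hy0 : ∀ n, y n ≠ 0 := fun n => hy _ (Nat.le_add_left _ _)
  have hyP : ∀ n, ‖y n‖ ≤ ‖P (s n + n0)‖ := fun n => norm_le_pi_norm (P (s n + n0)) 1
  have hyn : Tendsto (fun n => ‖y n‖) atTop (𝓝 0) :=
    squeeze_zero (fun n => norm_nonneg _) hyP hPs
  have hPx : ∀ n, P (s n + n0) 0 = y n ^ 2 * u n := by
    intro n
    have := hy0 n
    simp only [hudef]
    field_simp
  have hPz : ∀ n, P (s n + n0) 2 = y n ^ 3 * v n := by
    intro n
    have := hy0 n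
    simp only [hvdef]
    field_simp
  have hPy : ∀ n, P (s n + n0) 1 = y n := fun n => rfl
  have hdx : ∀ n, dx a (P (s n + n0)) = y n ^ 5 * (2 * u n * v n + 2 * a * u n + 1) := by
    intro n
    simp only [dx, hPx n, hPz n, hPy n]
    ring
  have hdz : ∀ n, dz (P (s n + n0)) = y n ^ 4 * (2 * v n + u n ^ 2) := by
    intro n
    simp only [dz, hPx n, hPz n, hPy n]
    ring
  have hPD : ∀ n, ‖P (s n + n0)‖ ≤ D * ‖y n‖ := fun n => (hb _ (Nat.le_add_left _ _)).1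
  have hgb : ∀ n, ‖grad a c (P (s n + n0))‖ ≤ C * D ^ 6 * ‖y n‖ ^ 6 := by
    intro n
    refine (hg _).trans ?_
    have h3 : ‖P (s n + n0)‖ ^ 6 ≤ (D * ‖y n‖) ^ 6 :=
      pow_le_pow_left₀ (norm_nonneg _) (hPD n) 6
    calc C * ‖P (s n + n0)‖ ^ 6 ≤ C * (D * ‖y n‖) ^ 6 := mul_le_mul_of_nonneg_left h3 hC.le
      _ = C * D ^ 6 * ‖y n‖ ^ 6 := by ring
  have hx1 : ∀ n, ‖2 * u n * v n + 2 * a * u n + 1‖ ≤ C * D ^ 6 * ‖y n‖ := by
    intro n
    have hyp : 0 < ‖y n‖ := norm_pos_iff.2 (hy0 n)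
    have h3 := ((h2 a c (P (s n + n0))).1).trans (hgb n)
    rw [hdx n, norm_mul, norm_pow] at h3
    have h4 : ‖y n‖ ^ 5 * ‖2 * u n * v n + 2 * a * u n + 1‖ ≤
        ‖y n‖ ^ 5 * (C * D ^ 6 * ‖y n‖) := by
      refine h3.trans (le_of_eq ?_)
      ring
    exact le_of_mul_le_mul_left h4 (by positivity)
  have hz1 : ∀ n, ‖2 * v n + u n ^ 2‖ ≤ C * D ^ 6 * ‖y n‖ ^ 2 := by
    intro n
    have hyp : 0 < ‖y n‖ := norm_pos_iff.2 (hy0 n)
    have h3 := ((h2 a c (P (s n + n0))).2.2.1).trans (hgb n)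
    rw [hdz n, norm_mul, norm_pow] at h3
    have h4 : ‖y n‖ ^ 4 * ‖2 * v n + u n ^ 2‖ ≤
        ‖y n‖ ^ 4 * (C * D ^ 6 * ‖y n‖ ^ 2) := by
      refine h3.trans (le_of_eq ?_)
      ring
    exact le_of_mul_le_mul_left h4 (by positivity)
  have hx0 : 2 * w.1 * w.2 + 2 * a * w.1 + 1 = 0 := by
    have hl : Tendsto (fun n => 2 * u n * v n + 2 * a * u n + 1) atTop
        (𝓝 (2 * w.1 * w.2 + 2 * a * w.1 + 1)) :=
      (((hu.const_mul 2).mul hv).add (hu.const_mul (2 * a))).add_const 1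
    have hr : Tendsto (fun n => 2 * u n * v n + 2 * a * u n + 1) atTop (𝓝 0) := by
      refine squeeze_zero_norm hx1 ?_
      have := hyn.const_mul (C * D ^ 6)
      rwa [mul_zero] at this
    exact tendsto_nhds_unique hl hr
  have hz0 : 2 * w.2 + w.1 ^ 2 = 0 := by
    have hl : Tendsto (fun n => 2 * v n + u n ^ 2) atTop (𝓝 (2 * w.2 + w.1 ^ 2)) :=
      (hv.const_mul 2).add (hu.pow 2)
    have hr : Tendsto (fun n => 2 * v n + u n ^ 2) atTop (𝓝 0) := by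
      refine squeeze_zero_norm hz1 ?_
      have := (hyn.pow 2).const_mul (C * D ^ 6)
      simpa using this
    exact tendsto_nhds_unique hl hr
  have hw2 : w.2 = -(w.1 ^ 2) / 2 := by linear_combination hz0 / 2
  have hroot : Root a w.1 := by
    unfold Root
    rw [hw2] at hx0
    linear_combination -hx0
  refine ⟨fun n => s n + n0, w.1, D, hsm, hroot, fun n => hPD n, ?_⟩
  have hfam : ∀ n, fam a c (P (s n + n0)) / P (s n + n0) 1 ^ 7 =
      v n ^ 2 + u n ^ 2 * v n + a * u n ^ 2 + u n + c := by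
    intro n
    have hyn0 := hy0 n
    simp only [fam, hPx n, hPz n, hPy n]
    field_simp
    try ring
  have hval : val a c w.1 = w.2 ^ 2 + w.1 ^ 2 * w.2 + a * w.1 ^ 2 + w.1 + c := by
    unfold val
    rw [hw2]
    unfold Root at hroot
    linear_combination (w.1 / 4) * hroot
  rw [hval]
  refine Tendsto.congr (fun n => (hfam n).symm) ?_
  exact ((((hv.pow 2).add ((hu.pow 2).mul hv)).add ((hu.pow 2).const_mul a)).add hu).add_const c

end Pool.Agent.H57.LU.LCB
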